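import Pool.Agent.SQA.Main

/-!
# MP_3bcd8c_co : `s_q`-abundance of `3`-connected graphs, all but finitely many pairs `(q, H)`
-/

namespace Pool.Agent.Results.MP_3bcd8c_co.AlmostAllPairs

open Pool.Agent.SQA

/-- There is a constant `C0` such that every `3`-connected graph `H` is `s_q`-abundant whenever
`q ≥ 2` and one of `q`, `|V(H)|` is at least `C0`. -/
theorem result : ∃ C0 : ℕ, ∀ (W : Type) [Finite W] (q : ℕ), 2 ≤ q →
    ∀ H : SimpleGraph W, ThreeConnected H → (C0 ≤ q ∨ C0 ≤ Nat.card W) → Abundant q H := by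
  obtain ⟨C0, hC0⟩ := main
  exact ⟨C0, fun W _ q hq H hH h => hC0 W q hq H hH
    (h.elim (fun h => Or.inr (Or.inr (Or.inl h))) (fun h => Or.inr (Or.inr (Or.inr (Or.inl h)))))⟩

end Pool.Agent.Results.MP_3bcd8c_co.AlmostAllPairs
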