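import Pool.Agent.SQA.Main

/-!
# MP_3bcd8c_co : triangle-free `3`-connected graphs are `s_q`-abundant for every `q`
-/

namespace Pool.Agent.Results.MP_3bcd8c_co.TriangleFree

open Pool.Agent.SQA

/-- For every `q ≥ 2` every triangle-free `3`-connected graph is `s_q`-abundant. -/
theorem result (W : Type) [Finite W] (q : ℕ) (hq : 2 ≤ q) (H : SimpleGraph W)
    (hH : ThreeConnected H) (hT : H.CliqueFree 3) : Abundant q H := by
  obtain ⟨C0, hC0⟩ := main
  exact hC0 W q hq H hH (Or.inr (Or.inl hT))

end Pool.Agent.Results.MP_3bcd8c_co.TriangleFree
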