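import Pool.Agent.SQA.Main

/-!
# MP_3bcd8c_co : every `3`-connected graph is `s_2`-abundant
-/

namespace Pool.Agent.Results.MP_3bcd8c_co.TwoColours

open Pool.Agent.SQA

/-- Every `3`-connected graph is `s_2`-abundant. -/
theorem result (W : Type) [Finite W] (H : SimpleGraph W) (hH : ThreeConnected H) :
    Abundant 2 H := by
  obtain ⟨C0, hC0⟩ := main
  exact hC0 W 2 le_rfl H hH (Or.inl rfl)

end Pool.Agent.Results.MP_3bcd8c_co.TwoColours
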